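import Pool.Agent.H46.CAB.Lin2
import Pool.Agent.H44.Local
import Pool.Agent.H44.Compare

/-!
From the count of nonadjacent pairs to `f_1` and `γ_2`.
-/

namespace Pool.Agent.H46.CAB

open Finset Polynomial Pool.Agent.H44

set_option linter.unusedSectionVars false

variable {V : Type*} [Fintype V] [DecidableEq V]
variable {G : SimpleGraph V} [DecidableRel G.Adj] {A : Finset V} {d : ℕ} {x y : V}

lemma PM.nonempty (h : PM G A d) (hd : 1 ≤ d) : A.Nonempty := by
  obtain ⟨t, ht1, _, _, ht4⟩ := h.pure ∅ (empty_subset _) (by simp)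
  obtain ⟨x, hx⟩ := card_pos.1 (by omega : 0 < t.card)
  exact ⟨x, ht1 hx⟩

lemma PM.W_pos (h : PM G A d) (hx : x ∈ A) : 1 ≤ (W G A x).card := by
  obtain ⟨t, ht1, ht2, ht3, ht4⟩ := h.pure {x} (by simpa using hx) (clique_single x)
  have hxt : x ∈ t := ht2 (mem_singleton_self _)
  obtain ⟨y, hyA, hyt, hxy, _⟩ := h.flip ht1 ht3 ht4 hxt
  apply card_pos.2
  refine ⟨y, mem_W.2 ⟨hyA, ?_, hxy⟩⟩
  rintro rfl
  exact hyt hxt

lemma PM.two_mul_le : ∀ (d : ℕ) (A : Finset V), PM G A d → 2 * d ≤ A.card := by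
  intro d
  induction d with
  | zero => intro A _; omega
  | succ e ih =>
    intro A h
    obtain ⟨x, hx⟩ := h.nonempty (by omega)
    have h1 := ih _ (h.link hx)
    have h2 := card_split hx (G := G)
    have h3 := h.W_pos hx
    omega

theorem lin1 (G : SimpleGraph V) [DecidableRel G.Adj] : ∀ (d : ℕ) (A : Finset V), PM G A d →
    6 * A.card ≤ K G A + 10 * d := by
  intro d
  induction d with
  | zero =>
    intro A h
    have : A = ∅ := by
      by_contra hne
      obtain ⟨x, hx⟩ := nonempty_iff_ne_empty.2 hne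
      have := h.pos hx
      omega
    rw [this]; simp
  | succ e ih =>
    intro A h
    obtain ⟨x, hx, hmin⟩ := exists_min_image A (fun x => (W G A x).card) (h.nonempty (by omega))
    have h1 := ih _ (h.link hx)
    have h2 := card_split hx (G := G)
    have h3 := h.W_pos hx
    have h4 := excess h hx hmin
    set c := (W G A x).card with hc
    have h5 : 6 * c ≤ c ^ 2 + 3 * c + 2 := by
      rcases Nat.lt_or_ge c 2 with h6 | h6
      · have : c = 1 := by omega
        rw [this]; norm_num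
      · obtain ⟨k, hk⟩ : ∃ k, c = 2 + k := ⟨c - 2, by omega⟩
        rw [hk]; nlinarith
    omega

/-- flag Eulerian complexes are pseudomanifolds -/
lemma pm_of_eul (hE : Eul G d) : PM G univ d := by
  constructor
  · intro s _ hs; exact hE.card_le s hs
  · intro s _ hs
    obtain ⟨t, h1, h2, h3⟩ := hE.pure s hs
    exact ⟨t, subset_univ _, h1, h2, h3⟩
  · intro s _ hs hc
    rw [univ_inter]
    exact card_cn_two hE hs hc.symm

/-- edges and nonadjacent pairs -/
lemma edges_K (A : Finset V) : 2 * (Kc G A 2).card + K G A + A.card = A.card ^ 2 := by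
  have h1 := sum_Kc_card (G := G) (A := A) 1
  have h2 : Kc G A 1 = A.image fun x => ({x} : Finset V) := by
    ext t
    rw [mem_Kc, mem_image, card_eq_one]
    constructor
    · rintro ⟨h1, _, a, rfl⟩
      exact ⟨a, by simpa using h1, rfl⟩
    · rintro ⟨a, ha, rfl⟩
      exact ⟨by simpa using ha, clique_single a, a, rfl⟩
  rw [h2, sum_image (by intro a _ b _ h; simpa using h)] at h1
  have h3 : ∀ x ∈ A, (cn G {x} ∩ A).card + (W G A x).card + 1 = A.card := by
    intro x hx
    have h4 := card_split hx (G := G)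
    have h5 : cn G {x} ∩ A = nb G A x := by
      ext z
      rw [mem_inter, mem_cn, mem_nb]
      constructor
      · rintro ⟨h1, h2⟩
        exact ⟨h2, (h1 x (mem_singleton_self x)).symm⟩
      · rintro ⟨h1, h2⟩
        refine ⟨?_, h1⟩
        intro y hy
        rw [mem_singleton] at hy
        rw [hy]; exact h2.symm
    rw [h5]; omega
  have h4 : ∑ x ∈ A, ((cn G {x} ∩ A).card + (W G A x).card + 1) = A.card * A.card := by
    rw [sum_congr rfl h3, sum_const, smul_eq_mul]
  rw [sum_add_distrib, sum_add_distrib, h1, sum_const, smul_eq_mul, mul_one] at h4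
  unfold K
  rw [pow_two]
  omega

lemma gb_zero_two (d : ℕ) : 2 * (gb d 0).coeff 2 = 4 * (d : ℤ) * (d - 1) := by
  have h1 : gb d 0 = ((1 + X : ℤ[X]) ^ d).comp (C 2 * X) := by
    unfold gb
    rw [pow_comp, add_comp, one_comp, X_comp]
    simp
  have h2 : (gb d 0).coeff 2 = (d.choose 2 : ℤ) * 2 ^ 2 := by
    rw [h1, comp_C_mul_X_coeff, coeff_one_add_X_pow]
  have h3 := Nat.choose_two_right d
  have h4 : (d.choose 2 : ℤ) * 2 = d * (d - 1) := by
    have h5 : d.choose 2 * 2 = d * (d - 1) := by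
      rw [h3]
      exact Nat.div_mul_cancel (Nat.even_mul_pred_self d).two_dvd
    rcases Nat.eq_zero_or_pos d with h6 | h6
    · rw [h6]; simp
    · have h7 : ((d - 1 : ℕ) : ℤ) = d - 1 := by push_cast [Nat.cast_sub h6]; ring
      rw [← h7]
      exact_mod_cast h5
  rw [h2]
  linear_combination 4 * h4

/-- the first coefficients of the gamma vector -/
lemma gamma_low {d : ℕ} {γ : ℕ → ℤ}
    (hγ : cp G univ = ∑ j ∈ range (d / 2 + 1), C (γ j) * gb d j) :
    γ 0 = 1 ∧ (2 ≤ d → (Fintype.card V : ℤ) = 2 * d + γ 1) ∧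
      (4 ≤ d → 2 * ((Kc G univ 2).card : ℤ) = 4 * d * (d - 1) + 2 * γ 1 * (2 * d - 3) + 2 * γ 2) := by
  have h0 := coeff_gamma_le hγ (s := 0) (by omega)
  rw [cp_coeff, Kc_zero, card_singleton, range_zero, sum_empty, zero_add] at h0
  have h0' : γ 0 = 1 := by exact_mod_cast h0.symm
  refine ⟨h0', ?_, ?_⟩
  · intro hd
    have h1 := coeff_gamma_le hγ (s := 1) (by omega)
    rw [cp_coeff, Kc_one_card, card_univ, sum_range_one, h0', one_mul, gb_coeff_succ] at h1
    simp at h1
    rw [h1]
  · intro hd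
    have h2 := coeff_gamma_le hγ (s := 2) (by omega)
    rw [cp_coeff, sum_range_succ, sum_range_one, h0', one_mul, gb_coeff_succ] at h2
    have h3 := gb_zero_two d
    have h4 : ((d - 2 * 1 : ℕ) : ℤ) = d - 2 := by
      rw [Nat.cast_sub (by omega)]; norm_num
    rw [h4] at h2
    rw [h2]
    push_cast
    linear_combination h3

/-- the main inequalities for flag Eulerian complexes -/
theorem eul_main {r : ℕ} (hE : Eul G (2 * r + 1)) :
    2 * ((Kc G univ 2).card : ℤ) ≤ (Fintype.card V : ℤ) ^ 2 - 9 * Fintype.card V + 30 * r + 14 ∧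
    2 * ((Kc G univ 2).card : ℤ) ≤ (Fintype.card V : ℤ) ^ 2 - 7 * Fintype.card V + 20 * r + 10 ∧
    4 * r + 2 ≤ Fintype.card V := by
  have hP := pm_of_eul hE
  have h1 := lin2 G _ _ hP
  have h2 := lin1 G _ _ hP
  have h3 := edges_K (G := G) univ
  have h4 := PM.two_mul_le _ _ hP
  rw [card_univ] at h1 h2 h3 h4
  have h5 : (2 * r + 1) / 2 = r := by omega
  rw [h5] at h1
  refine ⟨?_, ?_, by omega⟩
  · zify at h1 h3
    linarith
  · zify at h2 h3
    linarith

/-- `2 e_2 = e_1^2 - p_2` -/
lemma two_esymm {ι : Type*} [DecidableEq ι] (S : Finset ι) (a : ι → ℕ) :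
    2 * ∑ T ∈ powersetCard 2 S, ∏ j ∈ T, a j + ∑ j ∈ S, a j ^ 2 = (∑ j ∈ S, a j) ^ 2 := by
  induction S using Finset.induction_on with
  | empty => simp
  | insert x S hx ih =>
    rw [powersetCard_succ_insert hx, sum_union, sum_image, sum_insert hx, sum_insert hx]
    · have h1 : ∑ T ∈ powersetCard 1 S, ∏ j ∈ insert x T, a j = a x * ∑ j ∈ S, a j := by
        rw [powersetCard_one, sum_map, mul_sum]
        apply sum_congr rfl
        intro j hj
        show ∏ i ∈ insert x {j}, a i = _
        rw [prod_insert, prod_singleton]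
        rw [mem_singleton]
        rintro rfl
        exact hx hj
      rw [h1]
      have h2 := ih
      nlinarith
    · intro T hT T' hT' h
      rw [mem_coe, mem_powersetCard] at hT hT'
      have h3 : x ∉ T := fun h => hx (hT.1 h)
      have h4 : x ∉ T' := fun h => hx (hT'.1 h)
      have h5 : insert x T = insert x T' := h
      rw [← erase_insert h3, ← erase_insert h4, h5]
    · rw [Finset.disjoint_left]
      intro T hT hT'
      rw [mem_image] at hT'
      obtain ⟨U, _, rfl⟩ := hT'
      exact hx ((mem_powersetCard.1 hT).1 (mem_insert_self _ _))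

/-- the sum of squares of a balanced sequence with small sum -/
lemma balanced_sq {r : ℕ} (a : Fin r → ℕ) (hbal : ∀ i j, a i ≤ a j + 1) (hs : ∑ j, a j ≤ 2 * r) :
    (∑ j, a j ^ 2 = ∑ j, a j) ∨ (∑ j, (a j ^ 2 : ℤ) = 3 * ∑ j, (a j : ℤ) - 2 * r) := by
  by_cases h0 : ∃ j, a j = 0
  · obtain ⟨j, hj⟩ := h0
    left
    apply sum_congr rfl
    intro i _
    have := hbal i j
    have h1 : a i = 0 ∨ a i = 1 := by omega
    rcases h1 with h1 | h1 <;> rw [h1] <;> norm_num
  · push Not at h0
    right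
    have h2 : ∀ i, a i ≤ 2 := by
      intro i
      by_contra hlt
      push Not at hlt
      have h3 : ∑ j ∈ univ.erase i, 2 ≤ ∑ j ∈ univ.erase i, a j := by
        apply sum_le_sum
        intro j _
        have := hbal i j
        omega
      rw [sum_const, card_erase_of_mem (mem_univ _), card_univ, Fintype.card_fin,
        smul_eq_mul] at h3
      have h4 := sum_erase_add (univ : Finset (Fin r)) a (mem_univ i)
      have h5 : 0 < r := i.pos
      omega
    have h3 : ∀ i, (a i ^ 2 : ℤ) = 3 * (a i : ℤ) - 2 := by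
      intro i
      have := h0 i
      have := h2 i
      have h4 : a i = 1 ∨ a i = 2 := by omega
      rcases h4 with h4 | h4 <;> rw [h4] <;> norm_num
    rw [sum_congr rfl (fun i _ => h3 i), sum_sub_distrib, ← mul_sum, sum_const, card_univ,
      Fintype.card_fin]
    simp
    ring

/-- the comparison of the gamma vectors up to index two -/
theorem gamma_le_two {r : ℕ} (hr : 1 ≤ r) (hE : Eul G (2 * r + 1)) (hn : Fintype.card V ≤ 6 * r + 2)
    {m : Fin r → ℕ} (hm : ∀ j, 4 ≤ m j) (hbal : ∀ i j, m i ≤ m j + 1)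
    (hsum : ∑ j, m j + 2 = Fintype.card V) {γ : ℕ → ℤ}
    (hγ : cp G univ = ∑ j ∈ range ((2 * r + 1) / 2 + 1), C (γ j) * gb (2 * r + 1) j) :
    ∀ i ≤ 2, i ≤ r → γ i ≤ gJ m i := by
  obtain ⟨h0, h1, h2⟩ := gamma_low hγ
  obtain ⟨e1, e2, e3⟩ := eul_main hE
  have hg : ∑ j, (m j - 4) + 4 * r = ∑ j, m j := by
    have : ∑ j, m j = ∑ j, ((m j - 4) + 4) := sum_congr rfl fun j _ => (Nat.sub_add_cancel (hm j)).symm
    rw [this, sum_add_distrib, sum_const, card_univ, Fintype.card_fin, smul_eq_mul]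
    ring
  have hg1 : γ 1 = ((∑ j, (m j - 4) : ℕ) : ℤ) := by
    have := h1 (by omega)
    rw [← hsum, ← hg] at this
    push_cast at this ⊢
    linarith
  intro i hi hir
  have hi' : i = 0 ∨ i = 1 ∨ i = 2 := by omega
  rcases hi' with rfl | rfl | rfl
  · rw [h0]
    unfold gJ
    rw [powersetCard_zero, sum_singleton, prod_empty]
    norm_num
  · rw [hg1]
    unfold gJ
    rw [powersetCard_one, sum_map]
    simp
  · have h3 := h2 (by omega)
    have h4 := two_esymm (univ : Finset (Fin r)) (fun j => m j - 4)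
    have hb := balanced_sq (fun j => m j - 4) (by
      intro i j
      have := hbal i j
      show m i - 4 ≤ m j - 4 + 1
      omega) (by
      show ∑ j, (m j - 4) ≤ 2 * r
      omega)
    have h5 : (2 * (gJ m 2 : ℕ) : ℤ) + ((∑ j, (m j - 4) ^ 2 : ℕ) : ℤ) = γ 1 ^ 2 := by
      rw [hg1]
      have : 2 * gJ m 2 + ∑ j, (m j - 4) ^ 2 = (∑ j, (m j - 4)) ^ 2 := h4
      exact_mod_cast this
    have hn1 := h1 (by omega)
    have hd : ((2 * r + 1 : ℕ) : ℤ) = 2 * r + 1 := by push_cast; ring
    rw [hd] at h3 hn1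
    rw [hn1] at e1 e2
    rcases hb with hb | hb
    · have hb' : ((∑ j, (m j - 4) ^ 2 : ℕ) : ℤ) = γ 1 := by
        rw [hg1]
        exact_mod_cast hb
      rw [hb'] at h5
      nlinarith
    · have hb' : ((∑ j, (m j - 4) ^ 2 : ℕ) : ℤ) = 3 * γ 1 - 2 * r := by
        rw [hg1]
        push_cast
        exact hb
      rw [hb'] at h5
      nlinarith

end Pool.Agent.H46.CAB
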