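import Pool.Agent.H46.CAB.PM

/-!
The linear inequality `8 n ≤ K + 14 d + 2 ⌊d/2⌋` for flag pseudomanifolds.
-/

namespace Pool.Agent.H46.CAB

open Finset Pool.Agent.H44

set_option linter.unusedSectionVars false

variable {V : Type*} [Fintype V] [DecidableEq V]
variable {G : SimpleGraph V} [DecidableRel G.Adj] {A : Finset V} {d : ℕ} {x y : V}

/-- the recursion for the number of nonadjacent pairs -/
lemma K_eq (hx : x ∈ A) :
    K G A = K G (nb G A x) + ∑ w ∈ W G A x, oo G A x w + (W G A x).card
      + ∑ w ∈ W G A x, (W G A w).card := by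
  have h1 : A = insert x (nb G A x ∪ W G A x) := by
    ext z
    simp only [mem_insert, mem_union, mem_nb, mem_W]
    constructor
    · intro hz
      by_cases hzx : z = x
      · left; exact hzx
      · right
        by_cases h : G.Adj x z
        · left; exact ⟨hz, h⟩
        · right; exact ⟨hz, hzx, h⟩
    · rintro (rfl | h | h)
      · exact hx
      · exact h.1
      · exact h.1
  have h2 : x ∉ nb G A x ∪ W G A x := by
    simp [mem_nb, mem_W]
  have h3 : Disjoint (nb G A x) (W G A x) := by
    rw [Finset.disjoint_left]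
    intro z hz hz'
    exact (mem_W.1 hz').2.2 (mem_nb.1 hz).2
  have h4 : K G A = (W G A x).card + (∑ y ∈ nb G A x, (W G A y).card
      + ∑ w ∈ W G A x, (W G A w).card) := by
    unfold K
    conv_lhs => rw [h1]
    rw [sum_insert h2, sum_union h3]
    rw [← h1]
  have h5 : ∀ y ∈ nb G A x, (W G A y).card = (W G (nb G A x) y).card
      + ((W G A x).filter fun w => ¬ G.Adj y w).card := by
    intro y hy
    rw [mem_nb] at hy
    rw [← card_union_of_disjoint]
    · congr 1
      ext z
      simp only [mem_union, mem_W, mem_nb, mem_filter]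
      constructor
      · rintro ⟨hz, hzy, hyz⟩
        by_cases h : G.Adj x z
        · left; exact ⟨⟨hz, h⟩, hzy, hyz⟩
        · right
          refine ⟨⟨hz, ?_, h⟩, hyz⟩
          rintro rfl
          exact hyz hy.2.symm
      · rintro (⟨⟨hz, h⟩, hzy, hyz⟩ | ⟨⟨hz, hzx, h⟩, hyz⟩)
        · exact ⟨hz, hzy, hyz⟩
        · refine ⟨hz, ?_, hyz⟩
          rintro rfl
          exact h hy.2
    · rw [Finset.disjoint_left]
      intro z hz hz'
      rw [mem_W, mem_nb] at hz
      rw [mem_filter, mem_W] at hz'
      exact hz'.1.2.2 hz.1.2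
  have h6 : ∑ y ∈ nb G A x, ((W G A x).filter fun w => ¬ G.Adj y w).card
      = ∑ w ∈ W G A x, oo G A x w := by
    unfold oo
    simp only [card_filter]
    rw [sum_comm]
    apply sum_congr rfl
    intro w _
    apply sum_congr rfl
    intro y _
    simp only [G.adj_comm]
  have h7 : ∑ y ∈ nb G A x, (W G A y).card = K G (nb G A x) + ∑ w ∈ W G A x, oo G A x w := by
    rw [sum_congr rfl h5, sum_add_distrib, h6]
    rfl
  rw [h4, h7]
  ring

lemma card_off_diag_even (s : Finset V) (R : V → V → Prop) [DecidableRel R]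
    (hsymm : ∀ a b, R a b → R b a) (hirr : ∀ a, ¬ R a a) :
    Even (∑ x ∈ s, (s.filter fun y => R x y).card) := by
  have h1 : (∑ x ∈ s, (s.filter fun y => R x y).card)
      = ((s ×ˢ s).filter fun p => R p.1 p.2).card := by
    simp only [card_filter, sum_product]
  rw [h1, ← ZMod.natCast_eq_zero_iff_even]
  have h2 : (((s ×ˢ s).filter fun p => R p.1 p.2).card : ZMod 2)
      = ∑ p ∈ (s ×ˢ s).filter fun p => R p.1 p.2, (1 : ZMod 2) := by simp
  rw [h2]
  refine Finset.sum_involution (fun p _ => (p.2, p.1)) ?_ ?_ ?_ ?_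
  · intro p _
    decide
  · rintro ⟨a, b⟩ hp _ heq
    simp only [mem_filter, mem_product] at hp
    simp only [Prod.mk.injEq] at heq
    rw [heq.1] at hp
    exact hirr _ hp.2
  · rintro ⟨a, b⟩ hp
    simp only [mem_filter, mem_product] at hp ⊢
    exact ⟨⟨hp.1.2, hp.1.1⟩, hsymm _ _ hp.2⟩
  · rintro ⟨a, b⟩ _
    rfl

lemma K_even (G : SimpleGraph V) [DecidableRel G.Adj] (A : Finset V) : Even (K G A) := by
  unfold K W
  apply card_off_diag_even A (fun x y => y ≠ x ∧ ¬ G.Adj x y)
  · rintro a b ⟨h1, h2⟩
    exact ⟨h1.symm, fun h => h2 h.symm⟩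
  · intro a h
    exact h.1 rfl

/-- join factors of pseudomanifolds -/
lemma PM.join {X Y : Finset V} (h : PM G A d) (hA : A = X ∪ Y)
    (hadj : ∀ x ∈ X, ∀ y ∈ Y, G.Adj x y) :
    ∃ a b, a + b = d ∧ PM G X a ∧ PM G Y b := by
  have hXA : X ⊆ A := by rw [hA]; exact subset_union_left
  have hYA : Y ⊆ A := by rw [hA]; exact subset_union_right
  have hdis : Disjoint X Y := by
    rw [Finset.disjoint_left]
    intro z h1 h2
    exact G.irrefl (hadj z h1 z h2)
  have hun : ∀ s ⊆ X, ∀ t ⊆ Y, G.IsClique (s : Set V) → G.IsClique (t : Set V) →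
      G.IsClique ((s ∪ t : Finset V) : Set V) := by
    intro s hs t ht h1 h2
    rw [isClique_union]
    exact ⟨h1, h2, fun u hu v hv _ => hadj u (hs hu) v (ht hv)⟩
  obtain ⟨t, ht1, ht2, ht3, ht4⟩ := h.pure ∅ (empty_subset _) (by simp)
  have htu : t = (t ∩ X) ∪ (t ∩ Y) := by
    rw [← inter_union_distrib_left, ← hA, inter_eq_left.2 ht1]
  have htc : (t ∩ X).card + (t ∩ Y).card = d := by
    rw [← card_union_of_disjoint, ← htu, ht4]
    exact hdis.mono inter_subset_right inter_subset_right
  have hcX : G.IsClique ((t ∩ X : Finset V) : Set V) := isClique_mono inter_subset_left ht3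
  have hcY : G.IsClique ((t ∩ Y : Finset V) : Set V) := isClique_mono inter_subset_left ht3
  -- general statement for one side
  have side : ∀ (P Q : Finset V), A = P ∪ Q → (∀ p ∈ P, ∀ q ∈ Q, G.Adj p q) →
      ∀ (a b : ℕ), a + b = d → ∀ (u v : Finset V), u ⊆ P → v ⊆ Q → G.IsClique (u : Set V) →
      G.IsClique (v : Set V) → u.card = a → v.card = b → PM G P a := by
    intro P Q hPQ hadj' a b hab u v hu hv huc hvc hua hvb
    have hPA : P ⊆ A := by rw [hPQ]; exact subset_union_left
    have hQA : Q ⊆ A := by rw [hPQ]; exact subset_union_right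
    have hdis' : Disjoint P Q := by
      rw [Finset.disjoint_left]
      intro z h1 h2
      exact G.irrefl (hadj' z h1 z h2)
    have hun' : ∀ s ⊆ P, ∀ t ⊆ Q, G.IsClique (s : Set V) → G.IsClique (t : Set V) →
        s ∪ t ⊆ A ∧ G.IsClique ((s ∪ t : Finset V) : Set V) ∧ (s ∪ t).card = s.card + t.card := by
      intro s hs t ht h1 h2
      refine ⟨union_subset (hs.trans hPA) (ht.trans hQA), ?_, ?_⟩
      · rw [isClique_union]
        exact ⟨h1, h2, fun u hu v hv _ => hadj' u (hs hu) v (ht hv)⟩
      · exact card_union_of_disjoint (hdis'.mono hs ht)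
    have hQle : ∀ w ⊆ Q, G.IsClique (w : Set V) → w.card ≤ b := by
      intro w hw hwc
      obtain ⟨h1, h2, h3⟩ := hun' u hu w hw huc hwc
      have := h.card_le _ h1 h2
      omega
    constructor
    · intro s hs hc
      obtain ⟨h1, h2, h3⟩ := hun' s hs v hv hc hvc
      have := h.card_le _ h1 h2
      omega
    · intro s hs hc
      obtain ⟨h1, h2, h3⟩ := hun' s hs v hv hc hvc
      obtain ⟨t, ht1, ht2, ht3, ht4⟩ := h.pure _ h1 h2
      refine ⟨t ∩ P, inter_subset_right, ?_, isClique_mono inter_subset_left ht3, ?_⟩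
      · exact subset_inter (subset_union_left.trans ht2) hs
      · have e1 : t = (t ∩ P) ∪ (t ∩ Q) := by
          rw [← inter_union_distrib_left, ← hPQ, inter_eq_left.2 ht1]
        have e2 : (t ∩ P).card + (t ∩ Q).card = d := by
          rw [← card_union_of_disjoint, ← e1, ht4]
          exact hdis'.mono inter_subset_right inter_subset_right
        have e3 : (t ∩ Q).card ≤ b :=
          hQle _ inter_subset_right (isClique_mono inter_subset_left ht3)
        have e4 : b ≤ (t ∩ Q).card := by
          rw [← hvb]
          exact card_le_card (subset_inter (subset_union_right.trans ht2) hv)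
        omega
    · intro s hs hc hcard
      obtain ⟨h1, h2, h3⟩ := hun' s hs v hv hc hvc
      have h4 := h.ridge _ h1 h2 (by omega)
      have h5 : A ∩ cn G (s ∪ v) = P ∩ cn G s := by
        ext z
        rw [mem_inter, mem_inter, cn_union, mem_inter]
        constructor
        · rintro ⟨hz, hzs, hzv⟩
          refine ⟨?_, hzs⟩
          by_contra hzP
          have hzQ : z ∈ Q := by
            rw [hPQ, mem_union] at hz
            exact hz.resolve_left hzP
          have h6 : G.IsClique ((insert z v : Finset V) : Set V) :=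
            clique_insert hvc fun y hy => mem_cn.1 hzv y hy
          have h7 := hQle _ (insert_subset hzQ hv) h6
          rw [card_insert_of_notMem (not_mem_of_mem_cn hzv)] at h7
          omega
        · rintro ⟨hz, hzs⟩
          refine ⟨hPA hz, hzs, ?_⟩
          rw [mem_cn]
          intro y hy
          exact hadj' z hz y (hv hy)
      rw [← h5]; exact h4
  refine ⟨(t ∩ X).card, (t ∩ Y).card, htc, ?_, ?_⟩
  · exact side X Y hA hadj _ _ htc (t ∩ X) (t ∩ Y) inter_subset_right inter_subset_right hcX hcY
      rfl rfl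
  · exact side Y X (by rw [hA, union_comm]) (fun p hp q hq => (hadj q hq p hp).symm) _ _
      (by omega) (t ∩ Y) (t ∩ X) inter_subset_right inter_subset_right hcY hcX rfl rfl

lemma PM.pos (h : PM G A d) (hx : x ∈ A) : 1 ≤ d := by
  have := h.card_le {x} (by simpa using hx) (clique_single x)
  simpa using this

lemma K_join {X Y : Finset V} (hA : A = X ∪ Y) (hadj : ∀ x ∈ X, ∀ y ∈ Y, G.Adj x y) :
    K G A = K G X + K G Y ∧ A.card = X.card + Y.card := by
  have hdis : Disjoint X Y := by
    rw [Finset.disjoint_left]
    intro z h1 h2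
    exact G.irrefl (hadj z h1 z h2)
  constructor
  · unfold K
    rw [hA, sum_union hdis]
    congr 1
    · apply sum_congr rfl
      intro x hx
      congr 1
      ext z
      simp only [mem_W, mem_union]
      constructor
      · rintro ⟨hz | hz, h1, h2⟩
        · exact ⟨hz, h1, h2⟩
        · exact absurd (hadj x hx z hz) h2
      · rintro ⟨hz, h1, h2⟩
        exact ⟨Or.inl hz, h1, h2⟩
    · apply sum_congr rfl
      intro x hx
      congr 1
      ext z
      simp only [mem_W, mem_union]
      constructor
      · rintro ⟨hz | hz, h1, h2⟩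
        · exact absurd (hadj z hz x hx).symm h2
        · exact ⟨hz, h1, h2⟩
      · rintro ⟨hz, h1, h2⟩
        exact ⟨Or.inr hz, h1, h2⟩
  · rw [hA, card_union_of_disjoint hdis]

/-- counting at a facet: if all codegrees are `c` and no nonneighbourhood meets a facet in more
than two vertices, then `d c + 3 d = 2 n`. -/
lemma PM.facet_count (h : PM G A d) {c : ℕ} (hreg : ∀ x ∈ A, (W G A x).card = c)
    (hk : ∀ t ⊆ A, G.IsClique (t : Set V) → t.card = d → ∀ y ∈ A, (W G A y ∩ t).card ≤ 2) :
    d * c + 3 * d = 2 * A.card := by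
  obtain ⟨t, ht1, ht2, ht3, ht4⟩ := h.pure ∅ (empty_subset _) (by simp)
  -- the sum over the facet
  have hW : ∀ x ∈ t, W G A x = (A \ t).filter fun y => ¬ G.Adj x y := by
    intro x hx
    ext z
    simp only [mem_W, mem_filter, mem_sdiff]
    constructor
    · rintro ⟨hz, hzx, hxz⟩
      refine ⟨⟨hz, ?_⟩, hxz⟩
      intro hzt
      exact hxz (ht3 (by exact_mod_cast hx) (by exact_mod_cast hzt) (Ne.symm hzx))
    · rintro ⟨⟨hz, hzt⟩, hxz⟩
      refine ⟨hz, ?_, hxz⟩
      rintro rfl
      exact hzt hx
  have hkap : ∀ y ∈ A \ t, (t.filter fun x => ¬ G.Adj x y) = W G A y ∩ t := by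
    intro y hy
    rw [mem_sdiff] at hy
    ext z
    simp only [mem_filter, mem_inter, mem_W]
    constructor
    · rintro ⟨hz, hzy⟩
      refine ⟨⟨ht1 hz, ?_, fun h => hzy h.symm⟩, hz⟩
      rintro rfl
      exact hy.2 hz
    · rintro ⟨⟨_, _, h2⟩, hz⟩
      exact ⟨hz, fun h => h2 h.symm⟩
  have h1 : ∑ x ∈ t, (W G A x).card = ∑ y ∈ A \ t, (W G A y ∩ t).card := by
    have e1 : ∑ x ∈ t, (W G A x).card = ∑ x ∈ t, ((A \ t).filter fun y => ¬ G.Adj x y).card :=
      sum_congr rfl fun x hx => by rw [hW x hx]
    have e2 : ∑ y ∈ A \ t, (W G A y ∩ t).card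
        = ∑ y ∈ A \ t, (t.filter fun x => ¬ G.Adj x y).card :=
      sum_congr rfl fun y hy => by rw [hkap y hy]
    rw [e1, e2]
    simp only [card_filter]
    rw [sum_comm]
  have h2 : ∑ x ∈ t, (W G A x).card = d * c := by
    rw [sum_congr rfl (fun x hx => hreg x (ht1 hx)), sum_const, ht4, smul_eq_mul]
  -- those with exactly one nonneighbour in the facet
  have hfib : ∀ x ∈ t, ((A \ t).filter fun y => W G A y ∩ t = {x}).card = 1 := by
    intro x hx
    obtain ⟨y, hyA, hyt, hxy, hy1, hy2, hy3, hy4, hy5⟩ := h.flip ht1 ht3 ht4 hx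
    rw [card_eq_one]
    refine ⟨y, ?_⟩
    ext z
    rw [mem_filter, mem_singleton, mem_sdiff]
    constructor
    · rintro ⟨⟨hzA, hzt⟩, hz⟩
      apply hy5 z hzA
      · rintro rfl
        exact hzt hx
      · intro u hu
        rw [mem_erase] at hu
        by_contra hcon
        have : u ∈ W G A z ∩ t := by
          rw [mem_inter, mem_W]
          refine ⟨⟨ht1 hu.2, ?_, hcon⟩, hu.2⟩
          rintro rfl
          exact hzt hu.2
        rw [hz, mem_singleton] at this
        exact hu.1 this
    · rintro rfl
      refine ⟨⟨hyA, hyt⟩, ?_⟩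
      ext u
      rw [mem_inter, mem_W, mem_singleton]
      constructor
      · rintro ⟨⟨_, hu1, hu2⟩, hut⟩
        by_contra hux
        exact hu2 (hy1 u (mem_erase.2 ⟨hux, hut⟩))
      · rintro rfl
        refine ⟨⟨ht1 hx, ?_, fun hh => hxy hh.symm⟩, hx⟩
        rintro rfl
        exact hyt hx
  have hone : ((A \ t).filter fun y => (W G A y ∩ t).card = 1).card = d := by
    have e1 : (A \ t).filter (fun y => (W G A y ∩ t).card = 1)
        = t.biUnion fun x => (A \ t).filter fun y => W G A y ∩ t = {x} := by
      ext y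
      simp only [mem_filter, mem_biUnion]
      constructor
      · rintro ⟨hy, hy1⟩
        obtain ⟨z, hz⟩ := card_eq_one.1 hy1
        refine ⟨z, ?_, hy, hz⟩
        have : z ∈ W G A y ∩ t := by rw [hz]; simp
        exact (mem_inter.1 this).2
      · rintro ⟨z, hz, hy, hyz⟩
        refine ⟨hy, ?_⟩
        rw [hyz, card_singleton]
    rw [e1, card_biUnion, sum_congr rfl hfib, sum_const, ht4]
    · simp
    · intro a ha b hb hab
      show Disjoint _ _
      rw [Finset.disjoint_left]
      intro z hz hz'
      rw [mem_filter] at hz hz'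
      have := hz.2.symm.trans hz'.2
      rw [singleton_inj] at this
      exact hab this
  have hval : ∀ y ∈ A \ t, (W G A y ∩ t).card + (if (W G A y ∩ t).card = 1 then 1 else 0) = 2 := by
    intro y hy
    rw [mem_sdiff] at hy
    have h3 := hk t ht1 ht3 ht4 y hy.1
    have h4 : 1 ≤ (W G A y ∩ t).card := by
      by_contra hlt
      have h5 : W G A y ∩ t = ∅ := by
        rw [← card_eq_zero]; omega
      have h6 : G.IsClique ((insert y t : Finset V) : Set V) := by
        apply clique_insert ht3
        intro u hu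
        by_contra hcon
        have : u ∈ W G A y ∩ t := by
          rw [mem_inter, mem_W]
          refine ⟨⟨ht1 hu, ?_, hcon⟩, hu⟩
          rintro rfl
          exact hy.2 hu
        rw [h5] at this
        simp at this
      have h7 := h.card_le _ (insert_subset hy.1 ht1) h6
      rw [card_insert_of_notMem hy.2] at h7
      omega
    split_ifs with hh
    · omega
    · omega
  have h3 : ∑ y ∈ A \ t, ((W G A y ∩ t).card + (if (W G A y ∩ t).card = 1 then 1 else 0))
      = (A \ t).card * 2 := by
    rw [sum_congr rfl hval, sum_const, smul_eq_mul]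
  rw [sum_add_distrib, ← card_filter, hone, ← h1, h2] at h3
  have h4 : (A \ t).card + d = A.card := by
    rw [← ht4]
    exact card_sdiff_add_card_eq_card ht1
  omega

/-- For a vertex `x` of minimal codegree. -/
lemma excess (h : PM G A (d + 1)) (hx : x ∈ A)
    (hmin : ∀ w ∈ A, (W G A x).card ≤ (W G A w).card) :
    K G (nb G A x) + (W G A x).card ^ 2 + 3 * (W G A x).card ≤ K G A + 2 := by
  have h1 := K_eq hx (G := G)
  have h2 := h.oo_sum hx
  have h3 : (W G A x).card * (W G A x).card ≤ ∑ w ∈ W G A x, (W G A w).card :=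
    Finset.card_nsmul_le_sum _ _ _ fun w hw => hmin w (W_sub hw)
  rw [pow_two]
  omega

theorem lin2 (G : SimpleGraph V) [DecidableRel G.Adj] : ∀ (d : ℕ) (A : Finset V), PM G A d →
    8 * A.card ≤ K G A + 14 * d + 2 * (d / 2) := by
  intro d
  induction d using Nat.strong_induction_on with
  | _ d ih =>
  intro A h
  rcases Nat.eq_zero_or_pos d with h0 | hpos
  · have : A = ∅ := by
      by_contra hne
      obtain ⟨x, hx⟩ := nonempty_iff_ne_empty.2 hne
      have := h.pos hx
      omega
    rw [this]
    simp
  obtain ⟨e, rfl⟩ : ∃ e, d = e + 1 := ⟨d - 1, by omega⟩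
  -- a vertex of minimal codegree
  have hne : A.Nonempty := by
    obtain ⟨t, ht1, _, _, ht4⟩ := h.pure ∅ (empty_subset _) (by simp)
    obtain ⟨x, hx⟩ := card_pos.1 (by omega : 0 < t.card)
    exact ⟨x, ht1 hx⟩
  obtain ⟨x, hx, hmin⟩ := exists_min_image A (fun x => (W G A x).card) hne
  set c := (W G A x).card with hc
  have hL := h.link hx
  have hrec := ih e (by omega) _ hL
  have hsplit := card_split hx (G := G)
  have hK := K_eq hx (G := G)
  -- c is positive
  have hcpos : 1 ≤ c := by
    obtain ⟨t, ht1, ht2, ht3, ht4⟩ := h.pure {x} (by simpa using hx) (clique_single x)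
    have hxt : x ∈ t := ht2 (mem_singleton_self _)
    obtain ⟨y, hyA, hyt, hxy, _⟩ := h.flip ht1 ht3 ht4 hxt
    rw [hc]
    apply card_pos.2
    refine ⟨y, mem_W.2 ⟨hyA, ?_, hxy⟩⟩
    rintro rfl
    exact hyt hxt
  have hex := excess h hx hmin
  rw [← hc] at hex hsplit
  -- the easy cases
  by_cases hodd : (e + 1) % 2 = 0
  · have h1 : 2 * (e / 2) + 2 = 2 * ((e + 1) / 2) := by omega
    have h2 : 8 * c ≤ c ^ 2 + 3 * c + 6 := by
      rcases Nat.lt_or_ge c 3 with h3 | h3
      · have h4 : c = 1 ∨ c = 2 := by omega
        rcases h4 with h4 | h4 <;> rw [h4] <;> norm_num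
      · obtain ⟨k, hk⟩ : ∃ k, c = 3 + k := ⟨c - 3, by omega⟩
        rw [hk]
        nlinarith
    omega
  have h1 : e / 2 = (e + 1) / 2 := by omega
  by_cases hc23 : c = 2 ∨ c = 3
  · by_contra hcon
    push Not at hcon
    -- every vertex of minimal codegree is tight
    have tight : ∀ z ∈ A, (W G A z).card = c →
        ∑ w ∈ W G A z, oo G A z w + 2 = 2 * c ∧ ∀ w ∈ W G A z, (W G A w).card = c := by
      intro z hz hzc
      have hLz := ih e (by omega) _ (h.link hz)
      have hsz := card_split hz (G := G)
      have hKz := K_eq hz (G := G)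
      have hoz := h.oo_sum hz
      rw [hzc] at hsz hKz hoz
      have hev1 := K_even G A
      have hev2 := K_even G (nb G A z)
      have hge : ∀ w ∈ W G A z, c ≤ (W G A w).card := fun w hw => hmin w (W_sub hw)
      have hsum : c * c ≤ ∑ w ∈ W G A z, (W G A w).card := by
        have := Finset.card_nsmul_le_sum (W G A z) (fun w => (W G A w).card) c hge
        rwa [hzc, smul_eq_mul] at this
      obtain ⟨a, ha⟩ := hev1
      obtain ⟨b, hb⟩ := hev2
      have hkey : ∑ w ∈ W G A z, oo G A z w + 2 = 2 * c ∧
          ∑ w ∈ W G A z, (W G A w).card = c * c := by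
        rcases hc23 with h2 | h2
        · have h3 : c * c = 4 := by rw [h2]
          omega
        · have h3 : c * c = 9 := by rw [h2]
          omega
      refine ⟨hkey.1, ?_⟩
      have h3 : ∑ w ∈ W G A z, c = ∑ w ∈ W G A z, (W G A w).card := by
        rw [sum_const, hzc, smul_eq_mul, hkey.2]
      have h4 := (sum_eq_sum_iff_of_le hge).1 h3
      intro w hw
      exact (h4 w hw).symm
    -- the set of vertices of minimal codegree is a join factor
    set X := A.filter fun z => (W G A z).card = c with hX
    set Y := A.filter fun z => (W G A z).card ≠ c with hY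
    have hAXY : A = X ∪ Y := by
      rw [hX, hY]; exact (filter_union_filter_not_eq _ _).symm
    have hadj : ∀ u ∈ X, ∀ v ∈ Y, G.Adj u v := by
      intro u hu v hv
      rw [hX, mem_filter] at hu
      rw [hY, mem_filter] at hv
      by_contra hcon2
      have hvu : v ≠ u := by
        rintro rfl
        exact hv.2 hu.2
      exact hv.2 ((tight u hu.1 hu.2).2 v (mem_W.2 ⟨hv.1, hvu, hcon2⟩))
    have hxX : x ∈ X := by rw [hX, mem_filter]; exact ⟨hx, hc.symm⟩
    by_cases hYe : Y = ∅
    · -- regular case
      have hreg : ∀ z ∈ A, (W G A z).card = c := by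
        intro z hz
        by_contra hzc
        have : z ∈ Y := by rw [hY, mem_filter]; exact ⟨hz, hzc⟩
        rw [hYe] at this
        simp at this
      have hk : ∀ t ⊆ A, G.IsClique (t : Set V) → t.card = e + 1 → ∀ y ∈ A,
          (W G A y ∩ t).card ≤ 2 := by
        intro t htA htc _ y hy
        by_contra hlt
        push Not at hlt
        have hle : (W G A y ∩ t).card ≤ (W G A y).card := card_le_card inter_subset_left
        rw [hreg y hy] at hle
        have hc3 : c = 3 := by omega
        have hsub : W G A y ⊆ t := by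
          have : W G A y ∩ t = W G A y := by
            apply eq_of_subset_of_card_le inter_subset_left
            rw [hreg y hy]; omega
          rw [← this]; exact inter_subset_right
        -- then the nonneighbourhood of y is a clique
        have hKy := (tight y hy (hreg y hy)).1
        have h5 : ∀ w ∈ W G A y, (W G A w).card = 1 + oo G A y w := by
          intro w hw
          have hw' := mem_W.1 hw
          have : W G A w = insert y ((nb G A y).filter fun u => ¬ G.Adj w u) := by
            ext u
            rw [mem_W, mem_insert, mem_filter, mem_nb]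
            constructor
            · rintro ⟨hu, huw, hwu⟩
              by_cases huy : u = y
              · left; exact huy
              · right
                refine ⟨⟨hu, ?_⟩, hwu⟩
                by_contra hyu
                have huW : u ∈ W G A y := mem_W.2 ⟨hu, huy, hyu⟩
                exact hwu (htc (by exact_mod_cast hsub hw) (by exact_mod_cast hsub huW) huw.symm)
            · rintro (rfl | ⟨⟨hu, hyu⟩, hwu⟩)
              · exact ⟨hy, hw'.2.1.symm, fun hh => hw'.2.2 hh.symm⟩
              · refine ⟨hu, ?_, hwu⟩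
                rintro rfl
                exact hw'.2.2 hyu
          rw [this, card_insert_of_notMem]
          · unfold oo; ring
          · rw [mem_filter, mem_nb]
            rintro ⟨⟨_, hh⟩, _⟩
            exact G.irrefl hh
        have h6 : ∑ w ∈ W G A y, (W G A w).card = ∑ w ∈ W G A y, (1 + oo G A y w) :=
          sum_congr rfl h5
        rw [sum_add_distrib, sum_const, hreg y hy, smul_eq_mul,
          sum_congr rfl (fun w hw => hreg w (W_sub hw)), sum_const, hreg y hy, smul_eq_mul] at h6
        rw [hc3] at h6 hKy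
        omega
      have hcount := h.facet_count hreg hk
      have hKreg : K G A = A.card * c := by
        unfold K
        rw [sum_congr rfl hreg, sum_const, smul_eq_mul]
      have hev := K_even G A
      rw [hKreg] at hev
      rcases hc23 with h2 | h2
      · rw [h2] at hcount
        omega
      · rw [h2] at hcount hev
        have h3 : A.card = 3 * (e + 1) := by omega
        rw [h3] at hev
        obtain ⟨a, ha⟩ := hev
        omega
    · -- a proper join
      obtain ⟨a, b, hab, hPX, hPY⟩ := h.join hAXY hadj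
      obtain ⟨y, hy⟩ := nonempty_iff_ne_empty.2 hYe
      have ha := hPX.pos hxX
      have hb := hPY.pos hy
      have h2 := ih a (by omega) X hPX
      have h3 := ih b (by omega) Y hPY
      obtain ⟨h4, h5⟩ := K_join hAXY hadj
      omega
  · have h2 : 8 * c ≤ c ^ 2 + 3 * c + 4 := by
      rcases Nat.lt_or_ge c 4 with h3 | h3
      · have : c = 1 := by omega
        rw [this]; norm_num
      · obtain ⟨k, hk⟩ : ∃ k, c = 4 + k := ⟨c - 4, by omega⟩
        rw [hk]
        nlinarith
    omega

end Pool.Agent.H46.CAB
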