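import Pool.Agent.H44.Basic

/-!
Flag pseudomanifolds without boundary, as cliques of a graph inside a set of vertices `A`.
-/

namespace Pool.Agent.H46.CAB

open Finset Pool.Agent.H44

set_option linter.unusedSectionVars false

variable {V : Type*} [Fintype V] [DecidableEq V]

/-- the clique complex of `G` on `A` is pure of dimension `d - 1` and every ridge is in exactly two
facets. -/
structure PM (G : SimpleGraph V) [DecidableRel G.Adj] (A : Finset V) (d : ℕ) : Prop where
  card_le : ∀ s ⊆ A, G.IsClique (s : Set V) → s.card ≤ d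
  pure : ∀ s ⊆ A, G.IsClique (s : Set V) → ∃ t ⊆ A, s ⊆ t ∧ G.IsClique (t : Set V) ∧ t.card = d
  ridge : ∀ s ⊆ A, G.IsClique (s : Set V) → s.card + 1 = d → (A ∩ cn G s).card = 2

/-- neighbours of `x` in `A` -/
def nb (G : SimpleGraph V) [DecidableRel G.Adj] (A : Finset V) (x : V) : Finset V :=
  A.filter fun y => G.Adj x y

/-- nonneighbours of `x` in `A` -/
def W (G : SimpleGraph V) [DecidableRel G.Adj] (A : Finset V) (x : V) : Finset V :=
  A.filter fun y => y ≠ x ∧ ¬ G.Adj x y

/-- number of ordered pairs of distinct nonadjacent vertices -/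
def K (G : SimpleGraph V) [DecidableRel G.Adj] (A : Finset V) : ℕ := ∑ x ∈ A, (W G A x).card

variable {G : SimpleGraph V} [DecidableRel G.Adj] {A : Finset V} {d : ℕ} {x y : V}

lemma mem_nb : y ∈ nb G A x ↔ y ∈ A ∧ G.Adj x y := by simp [nb]

lemma mem_W : y ∈ W G A x ↔ y ∈ A ∧ y ≠ x ∧ ¬ G.Adj x y := by simp [W]

lemma nb_sub : nb G A x ⊆ A := filter_subset _ _

lemma W_sub : W G A x ⊆ A := filter_subset _ _

lemma clique_insert {s : Finset V} (hs : G.IsClique (s : Set V)) (h : ∀ y ∈ s, G.Adj x y) :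
    G.IsClique ((insert x s : Finset V) : Set V) := by
  rw [coe_insert, SimpleGraph.isClique_insert]
  exact ⟨hs, fun b hb _ => h b hb⟩

lemma clique_erase {s : Finset V} (hs : G.IsClique (s : Set V)) (x : V) :
    G.IsClique ((s.erase x : Finset V) : Set V) := isClique_mono (erase_subset _ _) hs

lemma clique_single (x : V) : G.IsClique (({x} : Finset V) : Set V) := by
  rw [coe_singleton]; exact SimpleGraph.isClique_singleton _

lemma clique_pair {x y : V} (h : G.Adj x y) : G.IsClique (({x, y} : Finset V) : Set V) := by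
  apply clique_insert (clique_single y)
  intro z hz
  rw [mem_singleton] at hz
  rw [hz]; exact h

lemma card_split (hx : x ∈ A) : A.card = 1 + (nb G A x).card + (W G A x).card := by
  have h1 : A = insert x (nb G A x ∪ W G A x) := by
    ext z
    simp only [mem_insert, mem_union, mem_nb, mem_W]
    constructor
    · intro hz
      by_cases hzx : z = x
      · left; exact hzx
      · right
        by_cases h : G.Adj x z
        · left; exact ⟨hz, h⟩
        · right; exact ⟨hz, hzx, h⟩
    · rintro (rfl | h | h)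
      · exact hx
      · exact h.1
      · exact h.1
  have h2 : x ∉ nb G A x ∪ W G A x := by
    simp [mem_nb, mem_W]
  have h3 : Disjoint (nb G A x) (W G A x) := by
    rw [Finset.disjoint_left]
    intro z hz hz'
    exact (mem_W.1 hz').2.2 (mem_nb.1 hz).2
  have h4 : (insert x (nb G A x ∪ W G A x)).card = 1 + (nb G A x).card + (W G A x).card := by
    rw [card_insert_of_notMem h2, card_union_of_disjoint h3]
    ring
  rw [← h1] at h4
  exact h4

lemma PM.link (h : PM G A (d + 1)) (hx : x ∈ A) : PM G (nb G A x) d := by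
  have key : ∀ s ⊆ nb G A x, G.IsClique (s : Set V) →
      insert x s ⊆ A ∧ G.IsClique ((insert x s : Finset V) : Set V) ∧
        (insert x s).card = s.card + 1 := by
    intro s hs hc
    refine ⟨?_, ?_, ?_⟩
    · exact insert_subset hx (hs.trans nb_sub)
    · exact clique_insert hc fun y hy => (mem_nb.1 (hs hy)).2
    · apply card_insert_of_notMem
      intro hxs
      exact G.irrefl (mem_nb.1 (hs hxs)).2
  constructor
  · intro s hs hc
    obtain ⟨h1, h2, h3⟩ := key s hs hc
    have := h.card_le _ h1 h2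
    omega
  · intro s hs hc
    obtain ⟨h1, h2, h3⟩ := key s hs hc
    obtain ⟨t, ht1, ht2, ht3, ht4⟩ := h.pure _ h1 h2
    have hxt : x ∈ t := ht2 (mem_insert_self _ _)
    refine ⟨t.erase x, ?_, ?_, clique_erase ht3 x, ?_⟩
    · intro z hz
      rw [mem_erase] at hz
      rw [mem_nb]
      exact ⟨ht1 hz.2, ht3 (by exact_mod_cast hxt) (by exact_mod_cast hz.2) (Ne.symm hz.1)⟩
    · intro z hz
      rw [mem_erase]
      refine ⟨?_, ht2 (mem_insert_of_mem hz)⟩
      rintro rfl
      exact G.irrefl (mem_nb.1 (hs hz)).2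
    · rw [card_erase_of_mem hxt]; omega
  · intro s hs hc hcard
    obtain ⟨h1, h2, h3⟩ := key s hs hc
    have h4 := h.ridge _ h1 h2 (by omega)
    have h5 : A ∩ cn G (insert x s) = nb G A x ∩ cn G s := by
      ext z
      simp only [mem_inter, mem_cn, mem_insert, mem_nb]
      constructor
      · rintro ⟨hz, hz2⟩
        exact ⟨⟨hz, (hz2 x (Or.inl rfl)).symm⟩, fun y hy => hz2 y (Or.inr hy)⟩
      · rintro ⟨⟨hz, hz1⟩, hz2⟩
        refine ⟨hz, ?_⟩
        rintro y (rfl | hy)
        · exact hz1.symm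
        · exact hz2 y hy
    rw [← h5]; exact h4

/-- three common neighbours of a ridge are impossible -/
lemma PM.two (h : PM G A d) {s : Finset V} (hs : s ⊆ A) (hc : G.IsClique (s : Set V))
    (hcard : s.card + 1 = d) {a b c : V} (ha : a ∈ A) (hb : b ∈ A) (hc' : c ∈ A)
    (ha' : ∀ z ∈ s, G.Adj a z) (hb' : ∀ z ∈ s, G.Adj b z) (hcc : ∀ z ∈ s, G.Adj c z)
    (hab : a ≠ b) (hac : a ≠ c) (hbc : b ≠ c) : False := by
  have h1 := h.ridge s hs hc hcard
  have h2 : ({a, b, c} : Finset V) ⊆ A ∩ cn G s := by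
    intro z hz
    simp only [mem_insert, mem_singleton] at hz
    rw [mem_inter, mem_cn]
    rcases hz with rfl | rfl | rfl
    · exact ⟨ha, ha'⟩
    · exact ⟨hb, hb'⟩
    · exact ⟨hc', hcc⟩
  have h3 := card_le_card h2
  rw [h1] at h3
  have h4 : ({a, b, c} : Finset V).card = 3 := by
    rw [card_insert_of_notMem, card_insert_of_notMem, card_singleton]
    · simpa using hbc
    · simp [hab, hac]
  omega

/-- flipping a vertex of a facet -/
lemma PM.flip (h : PM G A d) {s : Finset V} (hs : s ⊆ A) (hc : G.IsClique (s : Set V))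
    (hcard : s.card = d) (hx : x ∈ s) :
    ∃ y ∈ A, y ∉ s ∧ ¬ G.Adj x y ∧ (∀ z ∈ s.erase x, G.Adj y z) ∧
      G.IsClique ((insert y (s.erase x) : Finset V) : Set V) ∧
      (insert y (s.erase x)).card = d ∧ insert y (s.erase x) ⊆ A ∧
      ∀ z ∈ A, z ≠ x → (∀ u ∈ s.erase x, G.Adj z u) → z = y := by
  have hpos : 0 < s.card := card_pos.2 ⟨x, hx⟩
  have hsub : s.erase x ⊆ A := (erase_subset _ _).trans hs
  have hec : (s.erase x).card + 1 = d := by rw [card_erase_of_mem hx]; omega
  have h1 := h.ridge _ hsub (clique_erase hc x) hec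
  have hxin : x ∈ A ∩ cn G (s.erase x) := by
    rw [mem_inter, mem_cn]
    refine ⟨hs hx, fun z hz => ?_⟩
    rw [mem_erase] at hz
    exact hc (by exact_mod_cast hx) (by exact_mod_cast hz.2) (Ne.symm hz.1)
  obtain ⟨y, hy, hyx⟩ := exists_mem_ne (by omega : 1 < (A ∩ cn G (s.erase x)).card) x
  rw [mem_inter, mem_cn] at hy
  have hys : y ∉ s := by
    intro hys
    exact G.irrefl (hy.2 y (mem_erase.2 ⟨hyx, hys⟩))
  have hcl := clique_insert (clique_erase hc x) hy.2
  have hyc : (insert y (s.erase x)).card = d := by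
    rw [card_insert_of_notMem (fun hh => hys (mem_of_mem_erase hh))]
    exact hec
  have hyA : insert y (s.erase x) ⊆ A := insert_subset hy.1 hsub
  refine ⟨y, hy.1, hys, ?_, hy.2, hcl, hyc, hyA, ?_⟩
  · intro hxy
    have h2 : G.IsClique ((insert y s : Finset V) : Set V) := by
      apply clique_insert hc
      intro z hz
      by_cases hzx : z = x
      · rw [hzx]; exact hxy.symm
      · exact hy.2 z (mem_erase.2 ⟨hzx, hz⟩)
    have h3 := h.card_le _ (insert_subset hy.1 hs) h2
    rw [card_insert_of_notMem hys] at h3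
    omega
  · intro z hz hzx hzu
    by_contra hzy
    refine h.two hsub (clique_erase hc x) hec (hs hx) hy.1 hz ?_ hy.2 hzu hyx.symm
      (Ne.symm hzx) (Ne.symm hzy)
    exact fun u hu => mem_cn.1 (mem_inter.1 hxin).2 u hu

/-- a facet avoiding a given vertex -/
lemma PM.avoid (h : PM G A d) (hx : x ∈ A) :
    ∃ t ⊆ A, G.IsClique (t : Set V) ∧ t.card = d ∧ x ∉ t := by
  obtain ⟨t, ht1, ht2, ht3, ht4⟩ := h.pure {x} (by simpa using hx) (clique_single x)
  have hxt : x ∈ t := ht2 (mem_singleton_self _)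
  obtain ⟨y, _, hy2, _, _, hy4, hy5, hy6, _⟩ := h.flip ht1 ht3 ht4 hxt
  refine ⟨_, hy6, hy4, hy5, ?_⟩
  rw [mem_insert, not_or]
  refine ⟨?_, by simp⟩
  rintro rfl
  exact hy2 hxt

/-- number of nonneighbours of `w` in the link of `x` -/
def oo (G : SimpleGraph V) [DecidableRel G.Adj] (A : Finset V) (x w : V) : ℕ :=
  ((nb G A x).filter fun y => ¬ G.Adj w y).card

/-- two nonneighbours of `x` are not both adjacent to all vertices of a facet of the link -/
lemma PM.not_both (h : PM G A (d + 1)) (hx : x ∈ A) {s : Finset V} (hs : s ⊆ nb G A x)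
    (hc : G.IsClique (s : Set V)) (hcard : s.card = d) {w w' : V} (hw : w ∈ W G A x)
    (hw' : w' ∈ W G A x) (hne : w ≠ w') (h1 : ∀ z ∈ s, G.Adj w z) (h2 : ∀ z ∈ s, G.Adj w' z) :
    False := by
  rw [mem_W] at hw hw'
  refine h.two (hs.trans nb_sub) hc (by omega) hx hw.1 hw'.1 ?_ h1 h2 hw.2.1.symm hw'.2.1.symm hne
  exact fun z hz => (mem_nb.1 (hs hz)).2

lemma PM.facet_of_oo (h : PM G A (d + 1)) (hx : x ∈ A) {w : V}
    (hw : oo G A x w ≤ 1) :
    ∃ t ⊆ nb G A x, G.IsClique (t : Set V) ∧ t.card = d ∧ ∀ z ∈ t, G.Adj w z := by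
  have hL := h.link hx
  rcases Nat.lt_or_ge (oo G A x w) 1 with h0 | h1
  · have h0' : oo G A x w = 0 := by omega
    unfold oo at h0'
    rw [card_eq_zero, filter_eq_empty_iff] at h0'
    obtain ⟨t, ht1, ht2, ht3, ht4⟩ := hL.pure ∅ (empty_subset _) (by simp)
    refine ⟨t, ht1, ht3, ht4, ?_⟩
    intro z hz
    have := h0' (ht1 hz)
    exact not_not.1 this
  · have h1' : oo G A x w = 1 := by omega
    unfold oo at h1'
    obtain ⟨y, hy⟩ := card_eq_one.1 h1'
    have hyL : y ∈ nb G A x := by
      have : y ∈ (nb G A x).filter fun y => ¬ G.Adj w y := by rw [hy]; simp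
      exact (mem_filter.1 this).1
    obtain ⟨t, ht1, ht2, ht3, ht4⟩ := hL.avoid hyL
    refine ⟨t, ht1, ht2, ht3, ?_⟩
    intro z hz
    by_contra hzw
    have : z ∈ (nb G A x).filter fun y => ¬ G.Adj w y := mem_filter.2 ⟨ht1 hz, hzw⟩
    rw [hy, mem_singleton] at this
    rw [this] at hz
    exact ht4 hz

/-- the counting lemma `C(x) ≥ 2 (c(x) - 1)` -/
lemma PM.oo_sum (h : PM G A (d + 1)) (hx : x ∈ A) :
    2 * (W G A x).card ≤ ∑ w ∈ W G A x, oo G A x w + 2 := by
  have hL := h.link hx
  by_cases h0 : ∃ w0 ∈ W G A x, oo G A x w0 = 0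
  · obtain ⟨w0, hw0, hz⟩ := h0
    have h1 : ∀ w ∈ (W G A x).erase w0, 2 ≤ oo G A x w := by
      intro w hw
      rw [mem_erase] at hw
      by_contra hlt
      obtain ⟨t, ht1, ht2, ht3, ht4⟩ := h.facet_of_oo hx (w := w) (by omega)
      refine h.not_both hx ht1 ht2 ht3 hw.2 hw0 hw.1 ht4 ?_
      intro z hz'
      unfold oo at hz
      rw [card_eq_zero, filter_eq_empty_iff] at hz
      exact not_not.1 (hz (ht1 hz'))
    have h2 : ((W G A x).erase w0).card * 2 ≤ ∑ w ∈ (W G A x).erase w0, oo G A x w :=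
      Finset.card_nsmul_le_sum _ _ _ h1
    rw [card_erase_of_mem hw0] at h2
    have h3 : ∑ w ∈ (W G A x).erase w0, oo G A x w ≤ ∑ w ∈ W G A x, oo G A x w :=
      sum_le_sum_of_subset (erase_subset _ _)
    have h4 : 0 < (W G A x).card := card_pos.2 ⟨w0, hw0⟩
    omega
  · push Not at h0
    set W1 := (W G A x).filter fun w => oo G A x w = 1 with hW1
    have hcard : W1.card ≤ 2 := by
      by_contra hlt
      push Not at hlt
      obtain ⟨w1, hw1, w2, hw2, w3, hw3, h12, h13, h23⟩ := Finset.two_lt_card.1 hlt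
      have key : ∀ w ∈ W1, ∃ y ∈ nb G A x, ∀ z ∈ nb G A x, z ≠ y → G.Adj w z := by
        intro w hw
        rw [hW1, mem_filter] at hw
        obtain ⟨y, hy⟩ := card_eq_one.1 hw.2
        refine ⟨y, ?_, ?_⟩
        · have : y ∈ (nb G A x).filter fun y => ¬ G.Adj w y := by rw [hy]; simp
          exact (mem_filter.1 this).1
        · intro z hz hzy
          by_contra hcon
          have : z ∈ (nb G A x).filter fun y => ¬ G.Adj w y := mem_filter.2 ⟨hz, hcon⟩
          rw [hy, mem_singleton] at this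
          exact hzy this
      have key2 : ∀ w ∈ W1, ∀ w' ∈ W1, w ≠ w' → ∀ y y' : V,
          (∀ z ∈ nb G A x, z ≠ y → G.Adj w z) → (∀ z ∈ nb G A x, z ≠ y' → G.Adj w' z) →
          ∀ t ⊆ nb G A x, G.IsClique (t : Set V) → t.card = d → y ∈ t ∨ y' ∈ t := by
        intro w hw w' hw' hne y y' hy hy' t ht htc htd
        by_contra hcon
        push Not at hcon
        refine h.not_both hx ht htc htd (mem_filter.1 hw).1 (mem_filter.1 hw').1 hne ?_ ?_
        · intro z hz
          exact hy z (ht hz) (fun e => hcon.1 (e ▸ hz))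
        · intro z hz
          exact hy' z (ht hz) (fun e => hcon.2 (e ▸ hz))
      have key3 : ∀ y ∈ nb G A x, ∀ y' ∈ nb G A x,
          (∀ t ⊆ nb G A x, G.IsClique (t : Set V) → t.card = d → y ∈ t ∨ y' ∈ t) →
          y ≠ y' ∧ ¬ G.Adj y y' := by
        intro y hy y' hy' hall
        constructor
        · rintro rfl
          obtain ⟨t, ht1, ht2, ht3, ht4⟩ := hL.avoid hy
          rcases hall t ht1 ht2 ht3 with h | h
          · exact ht4 h
          · exact ht4 h
        · intro hadj
          obtain ⟨t, ht1, ht2, ht3, ht4⟩ := hL.pure {y, y'} (by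
            intro z hz
            simp only [mem_insert, mem_singleton] at hz
            rcases hz with rfl | rfl
            · exact hy
            · exact hy') (clique_pair hadj)
          have hyt : y ∈ t := ht2 (by simp)
          have hyt' : y' ∈ t := ht2 (by simp)
          obtain ⟨z, hzA, hzt, hzy, hz1, hz2, hz3, hz4, _⟩ := hL.flip ht1 ht3 ht4 hyt
          have hne : y' ≠ y := by
            rintro rfl
            exact G.irrefl hadj
          have hy1 : y' ∈ insert z (t.erase y) := by
            rw [mem_insert, mem_erase]; right; exact ⟨hne, hyt'⟩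
          obtain ⟨u, huA, hut, huy, hu1, hu2, hu3, hu4, _⟩ := hL.flip hz4 hz2 hz3 hy1
          have hzin : z ∈ (insert z (t.erase y)).erase y' := by
            rw [mem_erase]
            refine ⟨?_, mem_insert_self _ _⟩
            rintro rfl
            exact hzt hyt'
          rcases hall _ hu4 hu2 hu3 with h1 | h1
          · rw [mem_insert] at h1
            rcases h1 with h1 | h1
            · -- y = u
              have := hu1 z hzin
              rw [← h1] at this
              exact hzy this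
            · rw [mem_erase, mem_insert] at h1
              rcases h1.2 with h2 | h2
              · rw [← h2] at hzt; exact hzt hyt
              · simp at h2
          · rw [mem_insert] at h1
            rcases h1 with h1 | h1
            · rw [← h1] at hut; exact hut hy1
            · simp at h1
      obtain ⟨y1, hy1, hy1'⟩ := key w1 hw1
      obtain ⟨y2, hy2, hy2'⟩ := key w2 hw2
      obtain ⟨y3, hy3, hy3'⟩ := key w3 hw3
      have a12 := key2 w1 hw1 w2 hw2 h12 y1 y2 hy1' hy2'
      have a13 := key2 w1 hw1 w3 hw3 h13 y1 y3 hy1' hy3'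
      have a23 := key2 w2 hw2 w3 hw3 h23 y2 y3 hy2' hy3'
      obtain ⟨n12, m12⟩ := key3 y1 hy1 y2 hy2 a12
      obtain ⟨n13, m13⟩ := key3 y1 hy1 y3 hy3 a13
      obtain ⟨n23, m23⟩ := key3 y2 hy2 y3 hy3 a23
      obtain ⟨t, ht1, ht2, ht3, ht4⟩ := hL.pure ∅ (empty_subset _) (by simp)
      have b12 := a12 t ht1 ht3 ht4
      have b13 := a13 t ht1 ht3 ht4
      have b23 := a23 t ht1 ht3 ht4
      have adj : ∀ u v : V, u ∈ t → v ∈ t → u ≠ v → G.Adj u v := fun u v hu hv huv =>
        ht3 (by exact_mod_cast hu) (by exact_mod_cast hv) huv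
      rcases b12 with b | b
      · rcases b23 with c | c
        · exact m12 (adj _ _ b c n12)
        · exact m13 (adj _ _ b c n13)
      · rcases b13 with c | c
        · exact m12 (adj _ _ c b n12)
        · exact m23 (adj _ _ b c n23)
    have h1 : ∀ w ∈ W G A x, 2 ≤ oo G A x w + if oo G A x w = 1 then 1 else 0 := by
      intro w hw
      have := h0 w hw
      split_ifs with hh
      · omega
      · omega
    have h2 : (W G A x).card * 2 ≤
        ∑ w ∈ W G A x, (oo G A x w + if oo G A x w = 1 then 1 else 0) :=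
      Finset.card_nsmul_le_sum _ _ _ h1
    rw [sum_add_distrib, ← card_filter] at h2
    rw [hW1] at hcard
    omega

end Pool.Agent.H46.CAB
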